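import Mathlib

set_option autoImplicit false

namespace Pool.Agent.Results.MP_bfe725_co.AltPSL3




/-- A finite set `𝒰` of subgroups of a group `G` of order `s^2` is a *partial congruence partition*
of order `s` when every member has order `s` and distinct members meet only in `1`. -/
def IsPCP (G : Type*) [Group G] (𝒰 : Finset (Subgroup G)) : Prop :=
  (∀ U ∈ 𝒰, Nat.card U ^ 2 = Nat.card G) ∧ ∀ U ∈ 𝒰, ∀ V ∈ 𝒰, U ≠ V → U ⊓ V = ⊥

/-- `T G`: the largest degree (number of components) of a partial congruence partition in `G`. -/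
noncomputable def T (G : Type*) [Group G] : ℕ :=
  sSup {r : ℕ | ∃ 𝒰 : Finset (Subgroup G), IsPCP G 𝒰 ∧ 𝒰.card = r}

theorem T_eq_of {G : Type*} [Group G] {t : ℕ}
    (h1 : ∃ 𝒰 : Finset (Subgroup G), IsPCP G 𝒰 ∧ 𝒰.card = t)
    (h2 : ∀ 𝒰 : Finset (Subgroup G), IsPCP G 𝒰 → 𝒰.card ≤ t) : T G = t := by
  apply IsGreatest.csSup_eq
  exact ⟨h1, by rintro r ⟨𝒰, h, rfl⟩; exact h2 𝒰 h⟩

/-- In a PCP any conjugate of one component meets another component trivially. -/
theorem conj_disjoint {G : Type*} [Group G] [Finite G] {U V : Subgroup G}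
    (hU : Nat.card U ^ 2 = Nat.card G) (hV : Nat.card V ^ 2 = Nat.card G) (hd : U ⊓ V = ⊥)
    {g x : G} (hx : x ∈ U) (hy : g * x * g⁻¹ ∈ V) : x = 1 := by
  have hUV : Nat.card U = Nat.card V := by
    have : Nat.card U ^ 2 = Nat.card V ^ 2 := by rw [hU, hV]
    exact Nat.pow_left_injective (n := 2) (by norm_num) this
  have hcard : Nat.card V * Nat.card U = Nat.card G := by rw [← hU, hUV, sq]
  have hdis : Disjoint V U := by
    rw [disjoint_iff, inf_comm]; exact hd
  have hcomp : Subgroup.IsComplement' V U :=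
    Subgroup.isComplement'_of_card_mul_and_disjoint hcard hdis
  obtain ⟨⟨⟨v, hv⟩, ⟨u, hu⟩⟩, hvu⟩ := hcomp.2 g
  simp only at hvu
  -- g = v * u
  have h1 : u * x * u⁻¹ ∈ V := by
    have : u * x * u⁻¹ = v⁻¹ * (g * x * g⁻¹) * v := by rw [← hvu]; group
    rw [this]
    exact V.mul_mem (V.mul_mem (V.inv_mem hv) hy) hv
  have h2 : u * x * u⁻¹ ∈ U := U.mul_mem (U.mul_mem hu hx) (U.inv_mem hu)
  have h3 : u * x * u⁻¹ ∈ U ⊓ V := ⟨h2, h1⟩
  rw [hd, Subgroup.mem_bot] at h3
  have : x = u⁻¹ * (u * x * u⁻¹) * u := by group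
  rw [this, h3]; group

/-- General bound: if `κ` is a conjugacy-type function on the elements of order `p` with values in
a finite type such that equal values imply conjugacy, then a PCP has at most `card` components. -/
theorem card_le_of_classes {G : Type*} [Group G] [Finite G] {p : ℕ} [Fact p.Prime]
    (hp : p ∣ Nat.card G) {ι : Type*} [Fintype ι] (κ : G → ι)
    (hκ : ∀ x y : G, orderOf x = p → orderOf y = p → κ x = κ y → IsConj x y)
    {𝒰 : Finset (Subgroup G)} (h𝒰 : IsPCP G 𝒰) : 𝒰.card ≤ Fintype.card ι := by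
  classical
  have hex : ∀ U : 𝒰, ∃ x : G, x ∈ U.1 ∧ orderOf x = p := by
    rintro ⟨U, hU⟩
    have hpp : p.Prime := Fact.out
    have hdvd : p ∣ Nat.card U := by
      have := h𝒰.1 U hU
      rw [← this] at hp
      exact hpp.dvd_of_dvd_pow hp
    obtain ⟨x, hx⟩ := exists_prime_orderOf_dvd_card' p hdvd
    exact ⟨x, x.2, by rw [← hx]; exact Subgroup.orderOf_coe x⟩
  choose f hf hfo using hex
  have hinj : Function.Injective (fun U : 𝒰 => κ (f U)) := by
    intro U V hUV
    by_contra hne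
    have hne' : (U : Subgroup G) ≠ V := fun h => hne (Subtype.ext h)
    obtain ⟨c, hc⟩ := isConj_iff.1 (hκ _ _ (hfo U) (hfo V) hUV)
    have h1 : f U = 1 := conj_disjoint (h𝒰.1 _ U.2) (h𝒰.1 _ V.2) (h𝒰.2 _ U.2 _ V.2 hne') (hf U)
      (g := c) (by rw [hc]; exact hf V)
    have h2 := hfo U
    rw [h1, orderOf_one] at h2
    exact (Fact.out : p.Prime).one_lt.ne h2
  have := Fintype.card_le_of_injective _ hinj
  simpa using this

/-- The type of an element of `H × H`: second component trivial / first trivial / none. -/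
noncomputable def ty {H : Type*} [Group H] (x : H × H) : Fin 3 := by
  classical exact if x.2 = 1 then 0 else if x.1 = 1 then 1 else 2

theorem orderOf_of_ne {H : Type*} [Group H] {p : ℕ} (hp : p.Prime) {x : H} (h : x ^ p = 1)
    (hne : x ≠ 1) : orderOf x = p := by
  haveI := Fact.mk hp
  exact orderOf_eq_prime h hne

theorem le_three {H : Type*} [Group H] [Finite H] {p : ℕ} (hp : p.Prime)
    (hpH : p ∣ Nat.card H)
    (hconj : ∀ x y : H, orderOf x = p → orderOf y = p → IsConj x y)
    {𝒰 : Finset (Subgroup (H × H))} (h𝒰 : IsPCP (H × H) 𝒰) : 𝒰.card ≤ 3 := by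
  classical
  haveI := Fact.mk hp
  have hpG : p ∣ Nat.card (H × H) := by
    rw [Nat.card_prod]; exact dvd_mul_of_dvd_left hpH _
  have := card_le_of_classes (G := H × H) hpG (ty (H := H)) ?_ h𝒰
  · simpa using this
  rintro ⟨a, b⟩ ⟨c, d⟩ hx hy hty
  have hx1 : (a, b) ^ p = (1 : H × H) := by rw [← hx]; exact pow_orderOf_eq_one _
  have hy1 : (c, d) ^ p = (1 : H × H) := by rw [← hy]; exact pow_orderOf_eq_one _
  have ha : a ^ p = 1 := congrArg Prod.fst hx1
  have hb : b ^ p = 1 := congrArg Prod.snd hx1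
  have hc : c ^ p = 1 := congrArg Prod.fst hy1
  have hd : d ^ p = 1 := congrArg Prod.snd hy1
  have hab : (a, b) ≠ (1 : H × H) := by
    intro h; rw [h, orderOf_one] at hx; exact hp.one_lt.ne hx
  have hcd : (c, d) ≠ (1 : H × H) := by
    intro h; rw [h, orderOf_one] at hy; exact hp.one_lt.ne hy
  have key : ∀ u v : H, u ^ p = 1 → v ^ p = 1 → (u = 1 ↔ v = 1) → ∃ g : H, g * u * g⁻¹ = v := by
    intro u v hu hv huv
    by_cases h : u = 1
    · have h' := huv.1 h
      exact ⟨1, by rw [h, h']; simp⟩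
    · have h' : v ≠ 1 := fun hh => h (huv.2 hh)
      exact isConj_iff.1 (hconj u v (orderOf_of_ne hp hu h) (orderOf_of_ne hp hv h'))
  have h1 : a = 1 ↔ c = 1 := by
    unfold ty at hty
    simp only at hty
    by_cases hb1 : b = 1
    · have ha1 : a ≠ 1 := fun h => hab (by rw [h, hb1]; rfl)
      by_cases hd1 : d = 1
      · have hc1 : c ≠ 1 := fun h => hcd (by rw [h, hd1]; rfl)
        exact ⟨fun h => absurd h ha1, fun h => absurd h hc1⟩
      · by_cases hc1 : c = 1 <;> simp [hb1, hd1, hc1] at hty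
    · by_cases hd1 : d = 1
      · by_cases ha1 : a = 1 <;> simp [hb1, hd1, ha1] at hty
      · by_cases ha1 : a = 1 <;> by_cases hc1 : c = 1 <;> simp_all
  have h2 : b = 1 ↔ d = 1 := by
    unfold ty at hty
    simp only at hty
    by_cases hb1 : b = 1 <;> by_cases hd1 : d = 1
    · simp [hb1, hd1]
    · by_cases hc1 : c = 1 <;> simp [hb1, hd1, hc1] at hty
    · by_cases ha1 : a = 1 <;> simp [hb1, hd1, ha1] at hty
    · simp [hb1, hd1]
  obtain ⟨g, hg⟩ := key a c ha hc h1
  obtain ⟨k, hk⟩ := key b d hb hd h2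
  rw [isConj_iff]
  exact ⟨(g, k), by simp [Prod.ext_iff, hg, hk]⟩

/-- The three classical components `H × 1`, `1 × H`, diagonal. -/
theorem three_le {H : Type*} [Group H] [Finite H] [Nontrivial H] :
    ∃ 𝒰 : Finset (Subgroup (H × H)), IsPCP (H × H) 𝒰 ∧ 𝒰.card = 3 := by
  classical
  let A : Subgroup (H × H) := (MonoidHom.inl H H).range
  let B : Subgroup (H × H) := (MonoidHom.inr H H).range
  let D : Subgroup (H × H) := ((MonoidHom.id H).prod (MonoidHom.id H)).range
  have hA : ∀ x : H × H, x ∈ A ↔ x.2 = 1 := by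
    rintro ⟨a, b⟩
    simp only [A, MonoidHom.mem_range, MonoidHom.inl_apply, Prod.mk.injEq]
    constructor
    · rintro ⟨_, _, h⟩; exact h.symm
    · intro h; exact ⟨a, rfl, h.symm⟩
  have hB : ∀ x : H × H, x ∈ B ↔ x.1 = 1 := by
    rintro ⟨a, b⟩
    simp only [B, MonoidHom.mem_range, MonoidHom.inr_apply, Prod.mk.injEq]
    constructor
    · rintro ⟨_, h, _⟩; exact h.symm
    · intro h; exact ⟨b, h.symm, rfl⟩
  have hD : ∀ x : H × H, x ∈ D ↔ x.1 = x.2 := by
    rintro ⟨a, b⟩
    simp only [D, MonoidHom.mem_range, MonoidHom.prod_apply, MonoidHom.id_apply, Prod.mk.injEq]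
    constructor
    · rintro ⟨x, h, h'⟩; rw [← h, ← h']
    · intro h; exact ⟨a, rfl, h⟩
  have cA : Nat.card A = Nat.card H :=
    (Nat.card_congr (MonoidHom.ofInjective (f := MonoidHom.inl H H)
      (fun x y h => by simpa using h)).toEquiv).symm
  have cB : Nat.card B = Nat.card H :=
    (Nat.card_congr (MonoidHom.ofInjective (f := MonoidHom.inr H H)
      (fun x y h => by simpa using h)).toEquiv).symm
  have cD : Nat.card D = Nat.card H :=
    (Nat.card_congr (MonoidHom.ofInjective (f := (MonoidHom.id H).prod (MonoidHom.id H))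
      (fun x y h => by simpa using h)).toEquiv).symm
  have cG : Nat.card (H × H) = Nat.card H ^ 2 := by rw [Nat.card_prod, sq]
  obtain ⟨h, hh⟩ := exists_ne (1 : H)
  have hAB : A ≠ B := by
    intro e
    have : ((h, 1) : H × H) ∈ B := by rw [← e, hA]
    rw [hB] at this; exact hh this
  have hAD : A ≠ D := by
    intro e
    have : ((h, 1) : H × H) ∈ D := by rw [← e, hA]
    rw [hD] at this; exact hh this
  have hBD : B ≠ D := by
    intro e
    have : ((1, h) : H × H) ∈ D := by rw [← e, hB]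
    rw [hD] at this; exact hh this.symm
  have iAB : A ⊓ B = ⊥ := by
    rw [eq_bot_iff]
    rintro ⟨a, b⟩ ⟨h1, h2⟩
    have h1' := (hA _).1 h1
    have h2' := (hB _).1 h2
    simp only at h1' h2'
    rw [Subgroup.mem_bot, h1', h2']; rfl
  have iAD : A ⊓ D = ⊥ := by
    rw [eq_bot_iff]
    rintro ⟨a, b⟩ ⟨h1, h2⟩
    have h1' := (hA _).1 h1
    have h2' := (hD _).1 h2
    simp only at h1' h2'
    rw [Subgroup.mem_bot, h2', h1']; rfl
  have iBD : B ⊓ D = ⊥ := by
    rw [eq_bot_iff]
    rintro ⟨a, b⟩ ⟨h1, h2⟩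
    have h1' := (hB _).1 h1
    have h2' := (hD _).1 h2
    simp only at h1' h2'
    rw [Subgroup.mem_bot, ← h2', h1']; rfl
  refine ⟨{A, B, D}, ⟨?_, ?_⟩, ?_⟩
  · intro U hU
    simp only [Finset.mem_insert, Finset.mem_singleton] at hU
    rcases hU with rfl | rfl | rfl
    · rw [cA, cG]
    · rw [cB, cG]
    · rw [cD, cG]
  · intro U hU V hV hne
    simp only [Finset.mem_insert, Finset.mem_singleton] at hU hV
    rcases hU with rfl | rfl | rfl <;> rcases hV with rfl | rfl | rfl
    · exact absurd rfl hne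
    · exact iAB
    · exact iAD
    · rw [inf_comm]; exact iAB
    · exact absurd rfl hne
    · exact iBD
    · rw [inf_comm]; exact iAD
    · rw [inf_comm]; exact iBD
    · exact absurd rfl hne
  · rw [Finset.card_insert_of_notMem, Finset.card_insert_of_notMem, Finset.card_singleton]
    · simpa using hBD
    · simp [hAB, hAD]

/-- **Main criterion.** If all elements of order `p` of the finite group `H` are conjugate, for one
prime divisor `p` of `|H|`, then `T (H × H) = 3`. -/
theorem T_eq_three {H : Type*} [Group H] [Finite H] {p : ℕ} (hp : p.Prime)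
    (hpH : p ∣ Nat.card H)
    (hconj : ∀ x y : H, orderOf x = p → orderOf y = p → IsConj x y) :
    T (H × H) = 3 := by
  haveI : Nontrivial H := by
    rw [← Finite.one_lt_card_iff_nontrivial]
    exact lt_of_lt_of_le hp.one_lt (Nat.le_of_dvd Nat.card_pos hpH)
  exact T_eq_of three_le fun 𝒰 h => le_three hp hpH hconj h



/-! ### A sharper Bertrand postulate: a prime in `(n, 2n-2]` for `n ≥ 4` -/


open Real in
theorem real_ineq {x : ℝ} (x_large : (2048 : ℝ) ≤ x) :
    2 * x * (x * (2 * x) ^ √(2 * x) * 4 ^ (2 * x / 3)) ≤ 4 ^ x := by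
  let f : ℝ → ℝ := fun x => log (2 * x) + (log x + √(2 * x) * log (2 * x)) - log 4 / 3 * x
  have hf' : ∀ x, 0 < x → 0 < (2 * x) * (x * (2 * x) ^ √(2 * x)) / 4 ^ (x / 3) := fun x h =>
    div_pos (mul_pos (by positivity) (mul_pos h (rpow_pos_of_pos (mul_pos two_pos h) _)))
      (rpow_pos_of_pos four_pos _)
  have hf : ∀ x, 0 < x → f x = log ((2 * x) * (x * (2 * x) ^ √(2 * x)) / 4 ^ (x / 3)) := by
    intro x h5
    have h6 := mul_pos (zero_lt_two' ℝ) h5
    have h7 := rpow_pos_of_pos h6 (√(2 * x))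
    rw [log_div (by positivity) (rpow_pos_of_pos four_pos _).ne', log_mul h6.ne' (by positivity),
      log_mul h5.ne' h7.ne',
      log_rpow h6, log_rpow zero_lt_four, ← mul_div_right_comm, ← mul_div, mul_comm x]
  have h5 : 0 < x := lt_of_lt_of_le (by norm_num1) x_large
  have e1 : 2 * x * (x * (2 * x) ^ √(2 * x) * 4 ^ (2 * x / 3)) =
      (2 * x * (x * (2 * x) ^ √(2 * x))) * 4 ^ (2 * x / 3) := by ring
  rw [e1, ← div_le_one (rpow_pos_of_pos four_pos x), ← div_div_eq_mul_div, ← rpow_sub four_pos, ←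
    mul_div 2 x, mul_div_left_comm, ← mul_one_sub, (by norm_num1 : (1 : ℝ) - 2 / 3 = 1 / 3),
    mul_one_div, ← log_nonpos_iff (hf' x h5).le, ← hf x h5]
  have h : ConcaveOn ℝ (Set.Ioi 0.5) f := by
    apply ConcaveOn.sub
    · apply ConcaveOn.add
      · have h1 : ConcaveOn ℝ (Set.Ioi (0.5:ℝ)) (fun x : ℝ => log 2 + log x) :=
          (concaveOn_const _ (convex_Ioi 0.5)).add (strictConcaveOn_log_Ioi.concaveOn.subset
            (Set.Ioi_subset_Ioi (by norm_num)) (convex_Ioi 0.5))
        refine ConcaveOn.congr h1 ?_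
        intro y hy
        have hy' : (0:ℝ) < y := lt_trans (by norm_num) (Set.mem_Ioi.1 hy)
        simp only
        rw [log_mul (by norm_num) hy'.ne']
      apply ConcaveOn.add
      · exact strictConcaveOn_log_Ioi.concaveOn.subset
          (Set.Ioi_subset_Ioi (by norm_num)) (convex_Ioi 0.5)
      convert!
        ((strictConcaveOn_sqrt_mul_log_Ioi.concaveOn.comp_linearMap ((2 : ℝ) • LinearMap.id)))
        using 1
      ext x
      simp only [Set.mem_Ioi, Set.mem_preimage, LinearMap.smul_apply,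
        LinearMap.id_coe, id_eq, smul_eq_mul]
      rw [← mul_lt_mul_iff_right₀ (two_pos)]
      norm_num1
      rfl
    apply ConvexOn.smul
    · refine div_nonneg (log_nonneg (by norm_num1)) (by norm_num1)
    · exact convexOn_id (convex_Ioi (0.5 : ℝ))
  suffices ∃ x1 x2, 0.5 < x1 ∧ x1 < x2 ∧ x2 ≤ x ∧ 0 ≤ f x1 ∧ f x2 ≤ 0 by
    obtain ⟨x1, x2, h1, h2, h0, h3, h4⟩ := this
    exact (h.right_le_of_le_left'' h1 ((h1.trans h2).trans_le h0) h2 h0 (h4.trans h3)).trans h4
  refine ⟨18, 2048, by norm_num1, by norm_num1, x_large, ?_, ?_⟩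
  · have : √(2 * 18 : ℝ) = 6 := (sqrt_eq_iff_mul_self_eq_of_pos (by norm_num1)).mpr (by norm_num1)
    rw [hf _ (by norm_num1), log_nonneg_iff (by positivity), this, one_le_div (by norm_num1)]
    norm_num1
  · have : √(2 * 2048) = 64 :=
      (sqrt_eq_iff_mul_self_eq_of_pos (by norm_num1)).mpr (by norm_num1)
    rw [hf _ (by norm_num1), log_nonpos_iff (hf' _ (by norm_num1)).le, this,
        div_le_one (by positivity)]
    have e2 : (2 * 2048 : ℝ) = 2 ^ 12 := by norm_num
    have e3 : (2048 : ℝ) = 2 ^ 11 := by norm_num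
    have e4 : (4 : ℝ) ^ ((2048 : ℝ) / 3) = 2 ^ ((4096 : ℝ) / 3) := by
      rw [show (4:ℝ) = 2 ^ (2:ℝ) by norm_num, ← rpow_mul (by norm_num)]
      norm_num
    have e5 : ((2:ℝ) ^ 12) ^ (64:ℝ) = 2 ^ (768 : ℝ) := by
      rw [← rpow_natCast, ← rpow_mul (by norm_num)]
      norm_num
    rw [e4, e2, e3, e5]
    calc (2:ℝ) ^ 12 * (2 ^ 11 * 2 ^ (768:ℝ)) = 2 ^ (791 : ℝ) := by
          rw [← rpow_natCast, ← rpow_natCast, ← rpow_add (by norm_num), ← rpow_add (by norm_num)]
          norm_num
      _ ≤ 2 ^ ((4096 : ℝ) / 3) := by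
          apply rpow_le_rpow_of_exponent_le <;> norm_num

theorem nat_ineq {n : ℕ} (n_large : 2048 ≤ n) :
    n * (2 * n * ((2 * n) ^ Nat.sqrt (2 * n) * 4 ^ (2 * n / 3))) ≤ 4 ^ n := by
  have e : n * (2 * n * ((2 * n) ^ Nat.sqrt (2 * n) * 4 ^ (2 * n / 3))) =
    2 * n * (n * (2 * n) ^ Nat.sqrt (2 * n) * 4 ^ (2 * n / 3)) := by ring
  rw [e, ← @Nat.cast_le ℝ]
  simp only [Nat.cast_mul, Nat.cast_pow, ← Real.rpow_natCast, Nat.cast_ofNat]
  refine _root_.trans ?_ (real_ineq (by exact_mod_cast n_large))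
  gcongr
  · have n2_pos : 0 < 2 * n := by positivity
    exact mod_cast n2_pos
  · exact_mod_cast Real.nat_sqrt_le_real_sqrt
  · norm_num1
  · exact Nat.cast_div_le.trans (by norm_cast)

open Nat in
theorem factorization_small (n : ℕ) (n_large : 2 < n)
    (no_prime : ∀ p : ℕ, p.Prime → n < p → 2 * n - 2 < p) :
    centralBinom n ≤ (2 * n) * ∏ p ∈ Finset.range (2 * n / 3 + 1),
      p ^ (centralBinom n).factorization p := by
  have h0 : centralBinom n = ∏ p ∈ Finset.range (2 * n + 1), p ^ (centralBinom n).factorization p :=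
    n.prod_pow_factorization_centralBinom.symm
  have h1 : ∏ p ∈ Finset.range (2 * n + 1), p ^ (centralBinom n).factorization p =
      ∏ p ∈ insert (2 * n - 1) (Finset.range (2 * n / 3 + 1)),
        p ^ (centralBinom n).factorization p := by
    symm
    apply Finset.prod_subset
    · intro p hp
      rw [Finset.mem_insert, Finset.mem_range] at hp
      rw [Finset.mem_range]
      omega
    intro x hx h2x
    rw [Finset.mem_insert, not_or, Finset.mem_range] at h2x
    rw [Finset.mem_range] at hx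
    by_cases hxp : x.Prime
    · by_cases hxn : x ≤ n
      · rw [factorization_centralBinom_of_two_mul_self_lt_three_mul n_large hxn (by omega),
          Nat.pow_zero]
      · have h3 := no_prime x hxp (by omega)
        have h4 : x = 2 * n := by omega
        exfalso
        rw [h4] at hxp
        exact Nat.not_prime_mul (by norm_num) (by omega) hxp
    · rw [factorization_eq_zero_of_not_prime n.centralBinom hxp, Nat.pow_zero]
  rw [h1, Finset.prod_insert (by rw [Finset.mem_range]; omega)] at h0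
  refine h0.le.trans ?_
  apply Nat.mul_le_mul
  · exact pow_factorization_choose_le (mul_pos two_pos (by omega))
  · exact le_rfl

open Nat in
theorem centralBinom_le (n : ℕ) (n_large : 2 < n)
    (no_prime : ∀ p : ℕ, p.Prime → n < p → 2 * n - 2 < p) :
    centralBinom n ≤ (2 * n) * ((2 * n) ^ sqrt (2 * n) * 4 ^ (2 * n / 3)) := by
  have n_pos : 0 < n := (Nat.zero_le _).trans_lt n_large
  have n2_pos : 1 ≤ 2 * n := mul_pos (zero_lt_two' ℕ) n_pos
  let S := {p ∈ Finset.range (2 * n / 3 + 1) | Nat.Prime p}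
  let f x := x ^ n.centralBinom.factorization x
  have : ∏ x ∈ S, f x = ∏ x ∈ Finset.range (2 * n / 3 + 1), f x := by
    refine Finset.prod_filter_of_ne fun p _ h => ?_
    contrapose h; dsimp only [f]
    rw [factorization_eq_zero_of_not_prime n.centralBinom h, _root_.pow_zero]
  refine (factorization_small n n_large no_prime).trans ?_
  apply Nat.mul_le_mul_left
  rw [← this, ← Finset.prod_filter_mul_prod_filter_not S (· ≤ sqrt (2 * n))]
  apply mul_le_mul'
  · refine (Finset.prod_le_prod' fun p _ => (?_ : f p ≤ 2 * n)).trans ?_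
    · exact pow_factorization_choose_le (mul_pos two_pos n_pos)
    have : (Finset.Icc 1 (sqrt (2 * n))).card = sqrt (2 * n) := by rw [card_Icc, Nat.add_sub_cancel]
    rw [Finset.prod_const]
    refine pow_right_mono₀ n2_pos ((Finset.card_le_card fun x hx => ?_).trans this.le)
    obtain ⟨h1, h2⟩ := Finset.mem_filter.1 hx
    exact Finset.mem_Icc.mpr ⟨(Finset.mem_filter.1 h1).2.one_lt.le, h2⟩
  · refine le_trans ?_ (primorial_le_four_pow (2 * n / 3))
    refine (Finset.prod_le_prod' fun p hp => (?_ : f p ≤ p)).trans ?_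
    · obtain ⟨h1, h2⟩ := Finset.mem_filter.1 hp
      refine (pow_right_mono₀ (Finset.mem_filter.1 h1).2.one_lt.le ?_).trans (pow_one p).le
      exact Nat.factorization_choose_le_one (sqrt_lt'.mp <| not_le.1 h2)
    refine Finset.prod_le_prod_of_subset_of_one_le' (Finset.filter_subset _ _) ?_
    exact fun p hp _ => (Finset.mem_filter.1 hp).2.one_lt.le

theorem eventually (n : ℕ) (n_large : 2048 ≤ n) :
    ∃ p : ℕ, p.Prime ∧ n < p ∧ p ≤ 2 * n - 2 := by
  have no_prime : 4 ^ n < n * n.centralBinom :=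
    Nat.four_pow_lt_mul_centralBinom n (le_trans (by norm_num1) n_large)
  contrapose! no_prime
  have h1 := centralBinom_le n (lt_of_lt_of_le (by norm_num1) n_large) no_prime
  exact (Nat.mul_le_mul_left n h1).trans (nat_ineq n_large)

theorem succ_step {n : ℕ} (q : ℕ) {p : ℕ} (prime_p : Nat.Prime p)
    (covering : p + 2 ≤ 2 * q) (H : n < q → ∃ p : ℕ, p.Prime ∧ n < p ∧ p ≤ 2 * n - 2) (hn : n < p) :
    ∃ p : ℕ, p.Prime ∧ n < p ∧ p ≤ 2 * n - 2 := by
  by_cases h : n < q
  · exact H h
  · exact ⟨p, prime_p, hn, by omega⟩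

/-- Bertrand's postulate in its original form: for `n ≥ 4` there is a prime `n < p ≤ 2n - 2`. -/
theorem bertrand' (n : ℕ) (hn0 : 4 ≤ n) :
    ∃ p, Nat.Prime p ∧ n < p ∧ p ≤ 2 * n - 2 := by
  rcases lt_or_ge 2047 n with h | h
  · exact eventually n h
  replace h : n < 3511 := h.trans_lt (by norm_num1)
  revert h
  refine succ_step 1759 (by norm_num1) (by norm_num1) ?_
  refine succ_step 883 (by norm_num1) (by norm_num1) ?_
  refine succ_step 443 (by norm_num1) (by norm_num1) ?_
  refine succ_step 223 (by norm_num1) (by norm_num1) ?_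
  refine succ_step 113 (by norm_num1) (by norm_num1) ?_
  refine succ_step 59 (by norm_num1) (by norm_num1) ?_
  refine succ_step 31 (by norm_num1) (by norm_num1) ?_
  refine succ_step 19 (by norm_num1) (by norm_num1) ?_
  refine succ_step 11 (by norm_num1) (by norm_num1) ?_
  refine succ_step 7 (by norm_num1) (by norm_num1) ?_
  refine succ_step 5 (by norm_num1) (by norm_num1) ?_
  intro h
  exact ⟨5, by norm_num1, h, by omega⟩



/-! ### Alternating groups -/


open Equiv.Perm in
theorem alt_cycleType {n p : ℕ} (hp : p.Prime) (h1 : n < 2 * p)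
    (x : alternatingGroup (Fin n)) (hx : orderOf x = p) :
    (x : Equiv.Perm (Fin n)).cycleType = {p} := by
  have hx' : orderOf (x : Equiv.Perm (Fin n)) = p := by rw [Subgroup.orderOf_coe, hx]
  have hs : (x : Equiv.Perm (Fin n)).support.card ≤ n := by
    have := (x : Equiv.Perm (Fin n)).support.card_le_univ
    simpa using this
  have hc : (x : Equiv.Perm (Fin n)).IsCycle := isCycle_of_prime_order (by rw [hx']; exact hp)
    (by rw [hx']; omega)
  rw [hc.cycleType, ← hc.orderOf, hx']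

open Equiv.Perm in
theorem alt_conj {n p : ℕ} (hp : p.Prime) (h1 : n < 2 * p) (h2 : p + 2 ≤ n)
    (x y : alternatingGroup (Fin n)) (hx : orderOf x = p) (hy : orderOf y = p) : IsConj x y := by
  have cx := alt_cycleType hp h1 x hx
  have cy := alt_cycleType hp h1 y hy
  apply alternatingGroup.isConj_of
  · rw [isConj_iff_cycleType_eq, cx, cy]
  · rw [← sum_cycleType, cx]
    simpa using h2

open Equiv.Perm in
theorem alt6_conj (x y : alternatingGroup (Fin 6)) (hx : orderOf x = 2) (hy : orderOf y = 2) :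
    IsConj x y := by
  have key : ∀ x : alternatingGroup (Fin 6), orderOf x = 2 →
      (x : Equiv.Perm (Fin 6)).cycleType = Multiset.replicate 2 2 := by
    intro x hx
    have hx' : orderOf (x : Equiv.Perm (Fin 6)) = 2 := by rw [Subgroup.orderOf_coe, hx]
    obtain ⟨k, hk⟩ := cycleType_prime_order (σ := (x : Equiv.Perm (Fin 6)))
      (by rw [hx']; norm_num)
    rw [hx'] at hk
    have hs : (x : Equiv.Perm (Fin 6)).support.card ≤ 6 := by
      have := (x : Equiv.Perm (Fin 6)).support.card_le_univ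
      simpa using this
    rw [← sum_cycleType, hk, Multiset.sum_replicate] at hs
    simp only [smul_eq_mul] at hs
    have hsign : Equiv.Perm.sign (x : Equiv.Perm (Fin 6)) = 1 := x.2
    rw [sign_of_cycleType, hk, Multiset.sum_replicate, Multiset.card_replicate] at hsign
    have hk3 : k < 3 := by omega
    interval_cases k
    · exfalso; revert hsign; decide
    · rw [hk]
    · exfalso; revert hsign; decide
  have cx := key x hx
  have cy := key y hy
  apply alternatingGroup.isConj_of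
  · rw [isConj_iff_cycleType_eq, cx, cy]
  · rw [← sum_cycleType, cx]
    simp

theorem alt_dvd {n p : ℕ} (hn : 2 ≤ n) (hp : p.Prime) (h2 : p ≠ 2) (h : p ≤ n) :
    p ∣ Nat.card (alternatingGroup (Fin n)) := by
  haveI : Nontrivial (Fin n) := Fin.nontrivial_iff_two_le.2 hn
  have h1 := two_mul_nat_card_alternatingGroup (α := Fin n)
  rw [Nat.card_perm, Nat.card_fin] at h1
  have h3 : p ∣ 2 * Nat.card (alternatingGroup (Fin n)) := by
    rw [h1]; exact (hp.dvd_factorial).2 h
  exact ((Nat.coprime_primes hp Nat.prime_two).2 h2).dvd_of_dvd_mul_left h3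

theorem alt6_dvd : 2 ∣ Nat.card (alternatingGroup (Fin 6)) := by
  have h1 := two_mul_nat_card_alternatingGroup (α := Fin 6)
  rw [Nat.card_perm, Nat.card_fin] at h1
  have : Nat.factorial 6 = 720 := rfl
  omega



/-! ### PSL(2,F) -/


open Polynomial in
theorem two_sq {F : Type*} [Field F] [Finite F] (c : F) : ∃ u v : F, u ^ 2 + v ^ 2 = c := by
  haveI := Fintype.ofFinite F
  by_cases h2 : ringChar F = 2
  · obtain ⟨u, hu⟩ := FiniteField.isSquare_of_char_two h2 c
    exact ⟨u, 0, by rw [hu]; ring⟩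
  · have hodd : Fintype.card F % 2 = 1 := FiniteField.odd_card_of_char_ne_two h2
    let f : F[X] := X ^ 2
    let g : F[X] := X ^ 2 - C c
    obtain ⟨a, b, hab⟩ : ∃ a b, f.eval a + g.eval b = 0 :=
      FiniteField.exists_root_sum_quadratic (f := f) (g := g)
        (degree_X_pow 2) (degree_X_pow_sub_C (by decide) _) hodd
    refine ⟨a, b, ?_⟩
    rw [← sub_eq_zero]
    simpa only [f, g, eval_C, eval_X, eval_pow, eval_sub, ← add_sub_assoc] using hab

theorem rep {F : Type*} [Field F] [Finite F] (a b c : F) (hdet : -(a * a) - b * c = 1)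
    (hns : ¬ (b = 0 ∧ c = 0 ∧ a = -a)) :
    ∃ x y : F, x * (c * x - a * y) - (a * x + b * y) * y = 1 := by
  by_cases hc : c = 0
  · by_cases hb : b = 0
    · have ha : a ≠ -a := fun h => hns ⟨hb, hc, h⟩
      have ha2 : a + a ≠ 0 := fun h => ha (eq_neg_of_add_eq_zero_left h)
      have h1 : (a + a) * (a + a)⁻¹ = 1 := mul_inv_cancel₀ ha2
      refine ⟨-(a + a)⁻¹, 1, ?_⟩
      rw [hc, hb]
      linear_combination h1
    · obtain ⟨u, v, huv⟩ := two_sq (-b)
      -- b y + a x = u, x = v
      refine ⟨v, (u - a * v) / b, ?_⟩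
      have hbc : b * c = -(a * a) - 1 := by rw [← hdet]; ring
      have : (-b) * (v * (c * v - a * ((u - a * v) / b)) -
          (a * v + b * ((u - a * v) / b)) * ((u - a * v) / b)) = -b := by
        have e : b * ((u - a * v) / b) = u - a * v := by field_simp
        have : (-b) * (v * (c * v - a * ((u - a * v) / b)) -
          (a * v + b * ((u - a * v) / b)) * ((u - a * v) / b)) =
          -(b * c) * v ^ 2 + v * a * (b * ((u - a * v) / b)) +
            (a * v + b * ((u - a * v) / b)) * (b * ((u - a * v) / b)) := by ring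
        rw [this, e, hbc]
        linear_combination huv
      exact mul_left_cancel₀ (neg_ne_zero.2 hb) (by rw [this, mul_one])
  · obtain ⟨u, v, huv⟩ := two_sq c
    -- c x - a y = u, y = v
    refine ⟨(u + a * v) / c, v, ?_⟩
    have hbc : b * c = -(a * a) - 1 := by rw [← hdet]; ring
    have : c * (((u + a * v) / c) * (c * ((u + a * v) / c) - a * v) -
        (a * ((u + a * v) / c) + b * v) * v) = c := by
      have e : c * ((u + a * v) / c) = u + a * v := by field_simp
      have : c * (((u + a * v) / c) * (c * ((u + a * v) / c) - a * v) -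
        (a * ((u + a * v) / c) + b * v) * v) =
        (c * ((u + a * v) / c)) * (c * ((u + a * v) / c) - a * v) -
          (a * (c * ((u + a * v) / c)) + (b * c) * v) * v := by ring
      rw [this, e, hbc]
      linear_combination huv
    exact mul_left_cancel₀ hc (by rw [this, mul_one])

section
open Matrix

/-- the standard element of order `4` (or `2`) -/
def J (F : Type*) [Field F] : Matrix.SpecialLinearGroup (Fin 2) F :=
  ⟨!![0, -1; 1, 0], by simp [Matrix.det_fin_two_of]⟩

theorem conj_J {F : Type*} [Field F] [Finite F] (g : Matrix.SpecialLinearGroup (Fin 2) F)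
    (htr : g 1 1 = - g 0 0) (hns : ¬ (g 0 1 = 0 ∧ g 1 0 = 0 ∧ g 0 0 = g 1 1)) :
    IsConj (J F) g := by
  have hdet : -(g 0 0 * g 0 0) - g 0 1 * g 1 0 = 1 := by
    have := g.2
    rw [Matrix.det_fin_two] at this
    change g 0 0 * g 1 1 - g 0 1 * g 1 0 = 1 at this
    linear_combination this - g 0 0 * htr
  obtain ⟨x, y, hxy⟩ := rep (g 0 0) (g 0 1) (g 1 0) hdet (by rw [← htr]; exact hns)
  let P : Matrix.SpecialLinearGroup (Fin 2) F :=
    ⟨!![x, g 0 0 * x + g 0 1 * y; y, g 1 0 * x - g 0 0 * y], by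
      rw [Matrix.det_fin_two_of]; exact hxy⟩
  rw [isConj_iff]
  refine ⟨P, ?_⟩
  rw [mul_inv_eq_iff_eq_mul]
  apply Subtype.ext
  rw [Matrix.SpecialLinearGroup.coe_mul, Matrix.SpecialLinearGroup.coe_mul]
  have hg : (g : Matrix (Fin 2) (Fin 2) F) = !![g 0 0, g 0 1; g 1 0, - g 0 0] := by
    rw [← htr]
    exact Matrix.eta_fin_two _
  rw [hg]
  simp only [P, J]
  ext i j
  fin_cases i <;> fin_cases j
  · simp [Matrix.mul_apply, Fin.sum_univ_two]
  · simp [Matrix.mul_apply, Fin.sum_univ_two]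
    linear_combination x * hdet
  · simp [Matrix.mul_apply, Fin.sum_univ_two]
    ring
  · simp [Matrix.mul_apply, Fin.sum_univ_two]
    linear_combination y * hdet

theorem psl_conj {F : Type*} [Field F] [Finite F]
    (x y : Matrix.ProjectiveSpecialLinearGroup (Fin 2) F)
    (hx : orderOf x = 2) (hy : orderOf y = 2) : IsConj x y := by
  have key : ∀ x : Matrix.ProjectiveSpecialLinearGroup (Fin 2) F, orderOf x = 2 →
      IsConj ((QuotientGroup.mk (J F) : Matrix.ProjectiveSpecialLinearGroup (Fin 2) F)) x := by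
    intro x hx
    obtain ⟨g, rfl⟩ := QuotientGroup.mk_surjective x
    have hne : g ∉ Subgroup.center (Matrix.SpecialLinearGroup (Fin 2) F) := by
      intro h
      rw [(QuotientGroup.eq_one_iff g).2 h, orderOf_one] at hx
      norm_num at hx
    have hsq : g * g ∈ Subgroup.center (Matrix.SpecialLinearGroup (Fin 2) F) := by
      have h1 := pow_orderOf_eq_one
        (QuotientGroup.mk g : Matrix.ProjectiveSpecialLinearGroup (Fin 2) F)
      rw [hx, sq, ← QuotientGroup.mk_mul] at h1
      exact (QuotientGroup.eq_one_iff _).1 h1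
    have hns : ¬ (g 0 1 = 0 ∧ g 1 0 = 0 ∧ g 0 0 = g 1 1) := by
      rintro ⟨h1, h2, h3⟩
      apply hne
      rw [Matrix.SpecialLinearGroup.mem_center_iff]
      refine ⟨g 0 0, ?_, ?_⟩
      · have := g.2
        rw [Matrix.det_fin_two] at this
        change g 0 0 * g 1 1 - g 0 1 * g 1 0 = 1 at this
        rw [h1, ← h3] at this
        simp only [Fintype.card_fin]
        linear_combination this
      · ext i j
        fin_cases i <;> fin_cases j
        · simp
        · simpa using h1.symm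
        · simpa using h2.symm
        · simpa using h3
    have htr : g 1 1 = - g 0 0 := by
      rw [Matrix.SpecialLinearGroup.mem_center_iff] at hsq
      obtain ⟨r, hr, hr'⟩ := hsq
      have e01 : (Matrix.scalar (Fin 2) r) 0 1 = ((g * g : Matrix.SpecialLinearGroup (Fin 2) F) : Matrix (Fin 2) (Fin 2) F) 0 1 := by
        rw [hr']
      have e10 : (Matrix.scalar (Fin 2) r) 1 0 = ((g * g : Matrix.SpecialLinearGroup (Fin 2) F) : Matrix (Fin 2) (Fin 2) F) 1 0 := by
        rw [hr']
      have e00 : (Matrix.scalar (Fin 2) r) 0 0 = ((g * g : Matrix.SpecialLinearGroup (Fin 2) F) : Matrix (Fin 2) (Fin 2) F) 0 0 := by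
        rw [hr']
      have e11 : (Matrix.scalar (Fin 2) r) 1 1 = ((g * g : Matrix.SpecialLinearGroup (Fin 2) F) : Matrix (Fin 2) (Fin 2) F) 1 1 := by
        rw [hr']
      rw [Matrix.SpecialLinearGroup.coe_mul] at e01 e10 e00 e11
      simp [Matrix.mul_apply, Fin.sum_univ_two] at e01 e10 e00 e11
      have f01 : g 0 1 * (g 0 0 + g 1 1) = 0 := by linear_combination (-1 : F) * e01
      have f10 : g 1 0 * (g 0 0 + g 1 1) = 0 := by linear_combination (-1 : F) * e10
      have f0 : (g 0 0 - g 1 1) * (g 0 0 + g 1 1) = 0 := by linear_combination e11 - e00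
      by_contra hcon
      have hs : g 0 0 + g 1 1 ≠ 0 := fun h => hcon (eq_neg_of_add_eq_zero_right h)
      apply hns
      refine ⟨?_, ?_, ?_⟩
      · exact (mul_eq_zero.1 f01).resolve_right hs
      · exact (mul_eq_zero.1 f10).resolve_right hs
      · exact sub_eq_zero.1 ((mul_eq_zero.1 f0).resolve_right hs)
    obtain ⟨c, hc⟩ := isConj_iff.1 (conj_J g htr hns)
    rw [isConj_iff]
    refine ⟨QuotientGroup.mk c, ?_⟩
    rw [← QuotientGroup.mk_inv, ← QuotientGroup.mk_mul, ← QuotientGroup.mk_mul, hc]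
  exact (key x hx).symm.trans (key y hy)

theorem psl_dvd (F : Type*) [Field F] [Finite F] :
    2 ∣ Nat.card (Matrix.ProjectiveSpecialLinearGroup (Fin 2) F) := by
  have hJ : J F * J F ∈ Subgroup.center (Matrix.SpecialLinearGroup (Fin 2) F) := by
    rw [Matrix.SpecialLinearGroup.mem_center_iff]
    refine ⟨-1, by simp, ?_⟩
    rw [Matrix.SpecialLinearGroup.coe_mul]
    ext i j
    fin_cases i <;> fin_cases j <;> simp [J, Matrix.mul_apply, Fin.sum_univ_two]
  have hJ' : J F ∉ Subgroup.center (Matrix.SpecialLinearGroup (Fin 2) F) := by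
    intro h
    rw [Matrix.SpecialLinearGroup.mem_center_iff] at h
    obtain ⟨r, _, hr⟩ := h
    have e : (Matrix.scalar (Fin 2) r) 1 0 = ((J F) : Matrix (Fin 2) (Fin 2) F) 1 0 := by rw [hr]
    simp [J] at e
  have h : orderOf (QuotientGroup.mk (J F) : Matrix.ProjectiveSpecialLinearGroup (Fin 2) F) = 2 := by
    refine orderOf_eq_prime ?_ ?_
    · have h1 : (QuotientGroup.mk (J F) : Matrix.ProjectiveSpecialLinearGroup (Fin 2) F) ^ 2 =
          QuotientGroup.mk (J F * J F) := by rw [sq]; rfl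
      rw [h1]
      exact (QuotientGroup.eq_one_iff (J F * J F)).2 hJ
    · intro h
      exact hJ' ((QuotientGroup.eq_one_iff (J F)).1 h)
  have h2 := orderOf_dvd_natCard
    (QuotientGroup.mk (J F) : Matrix.ProjectiveSpecialLinearGroup (Fin 2) F)
  rw [h] at h2
  exact h2


end


/-! ### Cyclic Sylow subgroups (Q2) -/
theorem pcp_map {G K : Type*} [Group G] [Group K] (e : G ≃* K) {𝒰 : Finset (Subgroup G)}
    (h : IsPCP G 𝒰) : ∃ 𝒱 : Finset (Subgroup K), IsPCP K 𝒱 ∧ 𝒱.card = 𝒰.card := by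
  classical
  have hinj : Function.Injective (Subgroup.map (e : G →* K)) :=
    Subgroup.map_injective e.injective
  refine ⟨𝒰.image (Subgroup.map (e : G →* K)), ⟨?_, ?_⟩, Finset.card_image_of_injective _ hinj⟩
  · intro V hV
    obtain ⟨U, hU, rfl⟩ := Finset.mem_image.1 hV
    rw [← Nat.card_congr e.toEquiv, ← h.1 U hU]
    congr 1
    exact (Nat.card_congr (U.equivMapOfInjective (e : G →* K) e.injective).toEquiv).symm
  · intro V hV W hW hne
    obtain ⟨U, hU, rfl⟩ := Finset.mem_image.1 hV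
    obtain ⟨U', hU', rfl⟩ := Finset.mem_image.1 hW
    rw [← Subgroup.map_inf _ _ _ e.injective, h.2 U hU U' hU' (fun h => hne (by rw [h])),
      Subgroup.map_bot]

theorem T_congr {G K : Type*} [Group G] [Group K] (e : G ≃* K) : T G = T K := by
  unfold T
  congr 1
  ext r
  constructor
  · rintro ⟨𝒰, h, rfl⟩; exact pcp_map e h
  · rintro ⟨𝒰, h, rfl⟩; exact pcp_map e.symm h

/-- upper bound for `C × C`, `C` cyclic of prime power order -/
theorem cyc_le {S : Type*} [CommGroup S] [Finite S] [IsCyclic S] {p : ℕ} [hp : Fact p.Prime]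
    (hpS : p ∣ Nat.card S) {𝒰 : Finset (Subgroup (S × S))} (h𝒰 : IsPCP (S × S) 𝒰) :
    𝒰.card ≤ p + 1 := by
  classical
  have hpp : p.Prime := hp.out
  haveI := Fintype.ofFinite S
  have hex : ∀ U : 𝒰, ∃ x : S × S, x ∈ U.1 ∧ orderOf x = p := by
    rintro ⟨U, hU⟩
    have hdvd : p ∣ Nat.card U := by
      have h1 := h𝒰.1 U hU
      have : p ∣ Nat.card U ^ 2 := by
        rw [h1, Nat.card_prod]; exact dvd_mul_of_dvd_left hpS _
      exact hpp.dvd_of_dvd_pow this
    obtain ⟨x, hx⟩ := exists_prime_orderOf_dvd_card' p hdvd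
    exact ⟨x, x.2, by rw [← hx]; exact Subgroup.orderOf_coe x⟩
  choose f hf hfo using hex
  let E : Finset (S × S) := (Finset.univ.filter fun x : S => x ^ p = 1) ×ˢ
    (Finset.univ.filter fun x : S => x ^ p = 1)
  have hE : E.card ≤ p * p := by
    rw [Finset.card_product]
    exact Nat.mul_le_mul (IsCyclic.card_pow_eq_one_le hpp.pos) (IsCyclic.card_pow_eq_one_le hpp.pos)
  have hmem : ∀ x : S × S, x ^ p = 1 → x ∈ E := by
    rintro ⟨a, b⟩ h
    simp only [E, Finset.mem_product, Finset.mem_filter, Finset.mem_univ, true_and]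
    exact ⟨congrArg Prod.fst h, congrArg Prod.snd h⟩
  let φ : 𝒰 × Fin (p - 1) → S × S := fun z => f z.1 ^ ((z.2 : ℕ) + 1)
  have hφE : ∀ z, φ z ∈ E.erase 1 := by
    rintro ⟨U, k⟩
    rw [Finset.mem_erase]
    constructor
    · intro h
      have h1 := orderOf_dvd_of_pow_eq_one h
      rw [hfo] at h1
      have h2 := Nat.le_of_dvd (Nat.succ_pos _) h1
      have := k.2
      omega
    · apply hmem
      change (f U ^ ((k : ℕ) + 1)) ^ p = 1
      have h3 : f U ^ p = 1 := by
        have := pow_orderOf_eq_one (f U)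
        rwa [hfo U] at this
      rw [← pow_mul, mul_comm, pow_mul, h3, one_pow]
  have hφinj : Function.Injective φ := by
    rintro ⟨U, k⟩ ⟨V, l⟩ h
    change f U ^ ((k : ℕ) + 1) = f V ^ ((l : ℕ) + 1) at h
    by_cases hUV : U = V
    · subst hUV
      have hk := k.2
      have hl := l.2
      have := pow_injOn_Iio_orderOf (x := f U) (by rw [hfo]; simp; omega)
        (by rw [hfo]; simp; omega) h
      have hkl : k = l := Fin.ext (by omega)
      rw [hkl]
    · exfalso
      have h1 : f U ^ ((k : ℕ) + 1) ∈ U.1 ⊓ V.1 := by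
        refine ⟨U.1.pow_mem (hf U) _, ?_⟩
        rw [h]; exact V.1.pow_mem (hf V) _
      rw [h𝒰.2 _ U.2 _ V.2 (fun h => hUV (Subtype.ext h)), Subgroup.mem_bot] at h1
      have h2 := hφE ⟨U, k⟩
      rw [Finset.mem_erase] at h2
      exact h2.1 h1
  have h1mem : (1 : S × S) ∈ E := hmem 1 (one_pow p)
  have hcard : 𝒰.card * (p - 1) ≤ p * p - 1 := by
    have h1 : Fintype.card (𝒰 × Fin (p - 1)) ≤ (E.erase 1).card := by
      rw [← Finset.card_univ]
      exact Finset.card_le_card_of_injOn φ (fun z _ => hφE z) hφinj.injOn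
    rw [Fintype.card_prod, Fintype.card_coe, Fintype.card_fin, Finset.card_erase_of_mem h1mem] at h1
    omega
  have h3 : p * p - 1 = (p + 1) * (p - 1) := by
    obtain ⟨q, rfl⟩ : ∃ q, p = q + 1 := ⟨p - 1, by have := hpp.pos; omega⟩
    simp only [Nat.add_sub_cancel]
    have : (q + 1) * (q + 1) = (q + 1 + 1) * q + 1 := by ring
    omega
  rw [h3] at hcard
  exact Nat.le_of_mul_le_mul_right hcard (by have := hpp.one_lt; omega)

/-- lower bound for `S × S`, `S` an abelian `p`-group -/
theorem ab_ge {S : Type*} [CommGroup S] [Finite S] {p a : ℕ} (hpp : p.Prime)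
    (hcS : Nat.card S = p ^ a) (ha : a ≠ 0) :
    ∃ 𝒰 : Finset (Subgroup (S × S)), IsPCP (S × S) 𝒰 ∧ 𝒰.card = p + 1 := by
  classical
  haveI : Nontrivial S := by
    rw [← Finite.one_lt_card_iff_nontrivial, hcS]
    exact Nat.one_lt_pow ha hpp.one_lt
  let C : ℕ → Subgroup (S × S) := fun i => ((MonoidHom.id S).prod (powMonoidHom i)).range
  let B : Subgroup (S × S) := (MonoidHom.inr S S).range
  have hC : ∀ i (x : S × S), x ∈ C i ↔ x.2 = x.1 ^ i := by
    rintro i ⟨u, v⟩
    simp only [C, MonoidHom.mem_range, MonoidHom.prod_apply, MonoidHom.id_apply,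
      powMonoidHom_apply, Prod.mk.injEq]
    constructor
    · rintro ⟨x, h, h'⟩; rw [← h, ← h']
    · intro h; exact ⟨u, rfl, h.symm⟩
  have hB : ∀ x : S × S, x ∈ B ↔ x.1 = 1 := by
    rintro ⟨u, v⟩
    simp only [B, MonoidHom.mem_range, MonoidHom.inr_apply, Prod.mk.injEq]
    constructor
    · rintro ⟨_, h, _⟩; exact h.symm
    · intro h; exact ⟨v, h.symm, rfl⟩
  have cC : ∀ i, Nat.card (C i) = Nat.card S := fun i =>
    (Nat.card_congr (MonoidHom.ofInjective (f := (MonoidHom.id S).prod (powMonoidHom i))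
      (fun x y h => by
        have := congrArg Prod.fst h
        simpa using this)).toEquiv).symm
  have cB : Nat.card B = Nat.card S :=
    (Nat.card_congr (MonoidHom.ofInjective (f := MonoidHom.inr S S)
      (fun x y h => by simpa using h)).toEquiv).symm
  have cG : Nat.card (S × S) = Nat.card S ^ 2 := by rw [Nat.card_prod, sq]
  -- elements killed by a number `< p` are trivial
  have kill : ∀ (x : S) (k : ℕ), k ≠ 0 → k < p → x ^ k = 1 → x = 1 := by
    intro x k hk hkp hx
    have h1 : orderOf x ∣ k := orderOf_dvd_of_pow_eq_one hx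
    have h2 : orderOf x ∣ p ^ a := by rw [← hcS]; exact orderOf_dvd_natCard x
    have hcop : Nat.Coprime k (p ^ a) := by
      apply Nat.Coprime.pow_right
      rw [Nat.coprime_comm]
      exact (hpp.coprime_iff_not_dvd).2 fun h => absurd (Nat.le_of_dvd (Nat.pos_of_ne_zero hk) h)
        (by omega)
    have h3 : orderOf x ∣ 1 := by
      rw [← hcop]; exact Nat.dvd_gcd h1 h2
    exact orderOf_eq_one_iff.1 (Nat.dvd_one.1 h3)
  have iCC' : ∀ i j, i < j → j < p → C i ⊓ C j = ⊥ := by
    intro i j hij hj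
    rw [eq_bot_iff]
    rintro ⟨u, v⟩ ⟨h1, h2⟩
    have h1' := (hC i _).1 h1
    have h2' := (hC j _).1 h2
    simp only at h1' h2'
    have h3 : u ^ (j - i) = 1 := by
      have h4 : u ^ i * u ^ (j - i) = u ^ i * 1 := by
        rw [← pow_add, mul_one, ← h1', h2']; congr 1; omega
      exact mul_left_cancel h4
    have h5 := kill u (j - i) (by omega) (by omega) h3
    rw [h5, one_pow] at h1'
    rw [Subgroup.mem_bot, h5, h1']; rfl
  have iCC : ∀ i j, i < p → j < p → i ≠ j → C i ⊓ C j = ⊥ := by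
    intro i j hi hj hne
    rcases lt_or_gt_of_ne hne with h | h
    · exact iCC' i j h hj
    · rw [inf_comm]; exact iCC' j i h hi
  have iCB : ∀ i, C i ⊓ B = ⊥ := by
    intro i
    rw [eq_bot_iff]
    rintro ⟨u, v⟩ ⟨h1, h2⟩
    have h1' := (hC i _).1 h1
    have h2' := (hB _).1 h2
    simp only at h1' h2'
    rw [h2', one_pow] at h1'
    rw [Subgroup.mem_bot, h2', h1']; rfl
  have nbot : ∀ U : Subgroup (S × S), Nat.card U = Nat.card S → U ≠ ⊥ := by
    intro U hU h
    rw [h, Subgroup.card_bot] at hU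
    have := Finite.one_lt_card_iff_nontrivial.2 ‹Nontrivial S›
    omega
  have hCinj : Set.InjOn C (Finset.range p : Set ℕ) := by
    intro i hi j hj h
    by_contra hne
    have h1 := iCC i j (by simpa using hi) (by simpa using hj) hne
    rw [h, inf_idem] at h1
    exact nbot _ (cC j) h1
  have hBC : B ∉ (Finset.range p).image C := by
    intro h
    obtain ⟨i, _, hi⟩ := Finset.mem_image.1 h
    have h1 := iCB i
    rw [hi, inf_idem] at h1
    exact nbot _ cB h1
  refine ⟨insert B ((Finset.range p).image C), ⟨?_, ?_⟩, ?_⟩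
  · intro U hU
    rcases Finset.mem_insert.1 hU with rfl | hU
    · rw [cB, cG]
    · obtain ⟨i, _, rfl⟩ := Finset.mem_image.1 hU
      rw [cC, cG]
  · intro U hU V hV hne
    rcases Finset.mem_insert.1 hU with rfl | hU
    · rcases Finset.mem_insert.1 hV with rfl | hV
      · exact absurd rfl hne
      · obtain ⟨i, _, rfl⟩ := Finset.mem_image.1 hV
        rw [inf_comm]; exact iCB i
    · obtain ⟨i, hi, rfl⟩ := Finset.mem_image.1 hU
      rcases Finset.mem_insert.1 hV with rfl | hV
      · exact iCB i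
      · obtain ⟨j, hj, rfl⟩ := Finset.mem_image.1 hV
        exact iCC i j (Finset.mem_range.1 hi) (Finset.mem_range.1 hj) (fun h => hne (by rw [h]))
  · rw [Finset.card_insert_of_notMem hBC, Finset.card_image_of_injOn hCinj, Finset.card_range]

/-- Q2 for a prime with cyclic Sylow subgroups. -/
theorem sylow_cyclic {H : Type*} [Group H] [Finite H] {p : ℕ} (hpp : p.Prime)
    (hpH : p ∣ Nat.card H) (S : Sylow p H) (hS : IsCyclic S) (P : Sylow p (H × H)) :
    T P = p + 1 := by
  haveI := Fact.mk hpp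
  haveI := hS
  letI : CommGroup S := IsCyclic.commGroup
  have hcS : Nat.card S = p ^ (Nat.card H).factorization p := S.card_eq_multiplicity
  have hf : (Nat.card H).factorization p ≠ 0 := by
    have := hpp.factorization_pos_of_dvd (Nat.card_pos (α := H)).ne' hpH
    omega
  have hQ : Nat.card ((S : Subgroup H).prod (S : Subgroup H)) =
      p ^ (Nat.card (H × H)).factorization p := by
    rw [Nat.card_congr ((S : Subgroup H).prodEquiv (S : Subgroup H)).toEquiv, Nat.card_prod,
      Nat.card_prod, Nat.factorization_mul (Nat.card_pos (α := H)).ne' (Nat.card_pos (α := H)).ne',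
      Finsupp.add_apply, pow_add]
    have : Nat.card (S : Subgroup H) = p ^ (Nat.card H).factorization p := hcS
    rw [this]
  let Q : Sylow p (H × H) := Sylow.ofCard _ hQ
  have e : P ≃* S × S := (Sylow.equiv P Q).trans ((S : Subgroup H).prodEquiv (S : Subgroup H))
  rw [T_congr e]
  have hpS : p ∣ Nat.card S := by
    rw [hcS]; exact dvd_pow_self p hf
  exact T_eq_of (ab_ge hpp hcS hf) fun 𝒰 h => cyc_le hpS h



theorem alt_T {n : ℕ} (hn : 5 ≤ n) :
    T (alternatingGroup (Fin n) × alternatingGroup (Fin n)) = 3 := by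
  by_cases h6 : n = 6
  · subst h6
    exact T_eq_three Nat.prime_two alt6_dvd alt6_conj
  · obtain ⟨p, hp, h1, h2⟩ : ∃ p : ℕ, p.Prime ∧ n < 2 * p ∧ p + 2 ≤ n := by
      rcases Nat.even_or_odd n with he | ho
      · obtain ⟨k, hk⟩ := he
        obtain ⟨p, hp, h1, h2⟩ := bertrand' k (by omega)
        exact ⟨p, hp, by omega, by omega⟩
      · obtain ⟨k, hk⟩ := ho
        obtain ⟨p, hp, h1, h2⟩ := Nat.exists_prime_lt_and_le_two_mul k (by omega)
        have h3 : p ≠ 2 * k := by
          intro h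
          rw [h] at hp
          exact Nat.not_prime_mul (by norm_num) (by omega) hp
        exact ⟨p, hp, by omega, by omega⟩
    exact T_eq_three hp (alt_dvd (by omega) hp (by omega) (by omega)) (alt_conj hp h1 h2)

/-! ### Second criterion and PSL(3,F) -/


theorem free_dvd {G : Type*} [Group G] [Finite G] (U Q : Subgroup G)
    (h : ∀ g : G, ∀ x ∈ Q, g⁻¹ * x * g ∈ U → x = 1) : Nat.card Q ∣ U.index := by
  classical
  have e := MulAction.selfEquivSigmaOrbitsQuotientStabilizer Q (G ⧸ U)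
  have hst : ∀ z : G ⧸ U, MulAction.stabilizer Q z = ⊥ := by
    intro z
    obtain ⟨g, rfl⟩ := QuotientGroup.mk_surjective z
    rw [eq_bot_iff]
    rintro ⟨x, hx⟩ hxs
    rw [MulAction.mem_stabilizer_iff] at hxs
    have h1 : (QuotientGroup.mk (x * g) : G ⧸ U) = QuotientGroup.mk g := hxs
    have h2 : g⁻¹ * (x * g) ∈ U := QuotientGroup.eq.1 h1.symm
    have h3 := h g x hx (by rw [mul_assoc]; exact h2)
    rw [Subgroup.mem_bot]
    exact Subtype.ext h3
  haveI : Finite (MulAction.orbitRel.Quotient Q (G ⧸ U)) := Quotient.finite _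
  haveI := Fintype.ofFinite (MulAction.orbitRel.Quotient Q (G ⧸ U))
  have h4 : U.index = Nat.card (MulAction.orbitRel.Quotient Q (G ⧸ U)) * Nat.card Q := by
    rw [Subgroup.index, Nat.card_congr e, Nat.card_sigma]
    have : ∀ ω : MulAction.orbitRel.Quotient Q (G ⧸ U),
        Nat.card (Q ⧸ MulAction.stabilizer Q (Quotient.out ω)) = Nat.card Q := by
      intro ω
      rw [hst]
      exact Subgroup.index_bot
    rw [Finset.sum_congr rfl (fun ω _ => this ω), Finset.sum_const, Finset.card_univ,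
      ← Nat.card_eq_fintype_card, smul_eq_mul]
  rw [h4]
  exact dvd_mul_left _ _

theorem card_le_of_choice {G : Type*} [Group G] [Finite G] {ι : Type*} [Fintype ι]
    (κ : G → ι) (S : Set G)
    (hκ : ∀ x ∈ S, ∀ y ∈ S, κ x = κ y → IsConj x y)
    {𝒰 : Finset (Subgroup G)} (h𝒰 : IsPCP G 𝒰)
    (hex : ∀ U ∈ 𝒰, ∃ x ∈ S, x ≠ 1 ∧ ∃ g : G, g * x * g⁻¹ ∈ U) : 𝒰.card ≤ Fintype.card ι := by
  classical
  have hex' : ∀ U : 𝒰, ∃ x ∈ S, x ≠ 1 ∧ ∃ g : G, g * x * g⁻¹ ∈ U.1 := fun U => hex U.1 U.2
  choose f hf hf1 g hg using hex'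
  have hinj : Function.Injective (fun U : 𝒰 => κ (f U)) := by
    intro U V hUV
    by_contra hne
    have hne' : (U : Subgroup G) ≠ V := fun h => hne (Subtype.ext h)
    obtain ⟨c, hc⟩ := isConj_iff.1 (hκ _ (hf U) _ (hf V) hUV)
    have h1 : g U * f U * (g U)⁻¹ = 1 :=
      conj_disjoint (h𝒰.1 _ U.2) (h𝒰.1 _ V.2) (h𝒰.2 _ U.2 _ V.2 hne') (hg U)
      (g := g V * c * (g U)⁻¹) (by
        have : g V * c * (g U)⁻¹ * (g U * f U * (g U)⁻¹) * (g V * c * (g U)⁻¹)⁻¹ =
          g V * (c * f U * c⁻¹) * (g V)⁻¹ := by group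
        rw [this, hc]; exact hg V)
    apply hf1 U
    have : f U = (g U)⁻¹ * (g U * f U * (g U)⁻¹) * g U := by group
    rw [this, h1]; group
  have := Fintype.card_le_of_injective _ hinj
  simpa using this

/-- **Second criterion.** -/
theorem T_eq_three' {H : Type*} [Group H] [Finite H] [Nontrivial H] (Y : Subgroup H)
    (hY : ¬ Nat.card Y ^ 2 ∣ Nat.card H)
    (hconj : ∀ x ∈ Y, ∀ y ∈ Y, x ≠ 1 → y ≠ 1 → IsConj x y) : T (H × H) = 3 := by
  classical
  refine T_eq_of three_le fun 𝒰 h𝒰 => ?_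
  have := card_le_of_choice (G := H × H) (ty (H := H)) {x | x.1 ∈ Y ∧ x.2 ∈ Y ∧ x ≠ 1} ?_ h𝒰 ?_
  · simpa using this
  · rintro ⟨a, b⟩ ⟨ha, hb, hab⟩ ⟨c, d⟩ ⟨hc, hd, hcd⟩ hty
    simp only at ha hb hc hd
    have key : ∀ u ∈ Y, ∀ v ∈ Y, (u = 1 ↔ v = 1) → ∃ g : H, g * u * g⁻¹ = v := by
      intro u hu v hv huv
      by_cases h : u = 1
      · have h' := huv.1 h
        exact ⟨1, by rw [h, h']; simp⟩
      · have h' : v ≠ 1 := fun hh => h (huv.2 hh)
        exact isConj_iff.1 (hconj u hu v hv h h')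
    have h1 : a = 1 ↔ c = 1 := by
      unfold ty at hty
      simp only at hty
      by_cases hb1 : b = 1
      · have ha1 : a ≠ 1 := fun h => hab (by rw [h, hb1]; rfl)
        by_cases hd1 : d = 1
        · have hc1 : c ≠ 1 := fun h => hcd (by rw [h, hd1]; rfl)
          exact ⟨fun h => absurd h ha1, fun h => absurd h hc1⟩
        · by_cases hc1 : c = 1 <;> simp [hb1, hd1, hc1] at hty
      · by_cases hd1 : d = 1
        · by_cases ha1 : a = 1 <;> simp [hb1, hd1, ha1] at hty
        · by_cases ha1 : a = 1 <;> by_cases hc1 : c = 1 <;> simp_all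
    have h2 : b = 1 ↔ d = 1 := by
      unfold ty at hty
      simp only at hty
      by_cases hb1 : b = 1 <;> by_cases hd1 : d = 1
      · simp [hb1, hd1]
      · by_cases hc1 : c = 1 <;> simp [hb1, hd1, hc1] at hty
      · by_cases ha1 : a = 1 <;> simp [hb1, hd1, ha1] at hty
      · simp [hb1, hd1]
    obtain ⟨g, hg⟩ := key a ha c hc h1
    obtain ⟨k, hk⟩ := key b hb d hd h2
    rw [isConj_iff]
    exact ⟨(g, k), by simp [hg, hk]⟩
  · intro U hU
    by_contra hcon
    push Not at hcon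
    apply hY
    have h1 := free_dvd U (Y.prod Y) (by
      intro g x hx hxU
      by_contra hne
      rw [Subgroup.mem_prod] at hx
      exact hcon x ⟨hx.1, hx.2, hne⟩ hne g⁻¹ (by simpa using hxU))
    have h2 : Nat.card (Y.prod Y) = Nat.card Y ^ 2 := by
      rw [Nat.card_congr (Y.prodEquiv Y).toEquiv, Nat.card_prod, sq]
    have h3 : U.index = Nat.card H := by
      have h4 := U.card_mul_index
      have h5 := h𝒰.1 U hU
      have h6 : Nat.card U = Nat.card H := by
        have : Nat.card U ^ 2 = Nat.card H ^ 2 := by rw [h5, Nat.card_prod, sq]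
        exact Nat.pow_left_injective (n := 2) (by norm_num) this
      rw [h6, Nat.card_prod] at h4
      exact Nat.eq_of_mul_eq_mul_left Nat.card_pos h4
    rw [h2, h3] at h1
    exact h1

section
open Matrix

/-- the unipotent elements `1 + y E₁₂ + z E₁₃` -/
def u3 {F : Type*} [Field F] (y z : F) : Matrix.SpecialLinearGroup (Fin 3) F :=
  ⟨!![1, y, z; 0, 1, 0; 0, 0, 1], by simp [Matrix.det_fin_three]⟩

theorem u3_mul {F : Type*} [Field F] (y z y' z' : F) :
    u3 y z * u3 y' z' = u3 (y + y') (z + z') := by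
  apply Subtype.ext
  rw [Matrix.SpecialLinearGroup.coe_mul]
  simp only [u3]
  ext i j
  fin_cases i <;> fin_cases j <;> simp [Matrix.mul_apply, Fin.sum_univ_three, add_comm]

theorem u3_conj {F : Type*} [Field F] {y z : F} (h : ¬ (y = 0 ∧ z = 0)) :
    IsConj (u3 y z) (u3 (0 : F) 1) := by
  obtain ⟨a, b, hab⟩ : ∃ a b : F, a * z - b * y = 1 := by
    by_cases hz : z = 0
    · have hy : y ≠ 0 := fun hy => h ⟨hy, hz⟩
      exact ⟨0, -y⁻¹, by rw [hz]; simp [hy]⟩
    · exact ⟨z⁻¹, 0, by simp [hz]⟩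
  let P : Matrix.SpecialLinearGroup (Fin 3) F :=
    ⟨!![1, 0, 0; 0, a, b; 0, y, z], by
      simp [Matrix.det_fin_three]
      exact hab⟩
  rw [isConj_iff]
  refine ⟨P, ?_⟩
  rw [mul_inv_eq_iff_eq_mul]
  apply Subtype.ext
  rw [Matrix.SpecialLinearGroup.coe_mul, Matrix.SpecialLinearGroup.coe_mul]
  simp only [P, u3]
  ext i j
  fin_cases i <;> fin_cases j <;> simp [Matrix.mul_apply, Fin.sum_univ_three]

/-- the subgroup of `PSL(3,F)` made of the images of the `u3 y z` -/
def Y3 (F : Type*) [Field F] : Subgroup (Matrix.ProjectiveSpecialLinearGroup (Fin 3) F) where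
  carrier := {x | ∃ y z : F, x = QuotientGroup.mk (u3 y z)}
  mul_mem' := by
    rintro _ _ ⟨y, z, rfl⟩ ⟨y', z', rfl⟩
    exact ⟨y + y', z + z', by rw [← u3_mul]; rfl⟩
  one_mem' := ⟨0, 0, by
    have : u3 (0 : F) 0 = 1 := by
      apply Subtype.ext
      simp only [u3]
      ext i j
      fin_cases i <;> fin_cases j <;> simp
    rw [this]; rfl⟩
  inv_mem' := by
    rintro _ ⟨y, z, rfl⟩
    refine ⟨-y, -z, ?_⟩
    have : (u3 y z)⁻¹ = u3 (-y) (-z) := by
      rw [inv_eq_iff_mul_eq_one, u3_mul]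
      apply Subtype.ext
      simp only [u3]
      ext i j
      fin_cases i <;> fin_cases j <;> simp
    rw [← this]; rfl

theorem u3_center {F : Type*} [Field F] {y z : F}
    (h : u3 y z ∈ Subgroup.center (Matrix.SpecialLinearGroup (Fin 3) F)) : y = 0 ∧ z = 0 := by
  rw [Matrix.SpecialLinearGroup.mem_center_iff] at h
  obtain ⟨r, _, hr⟩ := h
  have e1 : (Matrix.scalar (Fin 3) r) 0 1 = ((u3 y z) : Matrix (Fin 3) (Fin 3) F) 0 1 := by rw [hr]
  have e2 : (Matrix.scalar (Fin 3) r) 0 2 = ((u3 y z) : Matrix (Fin 3) (Fin 3) F) 0 2 := by rw [hr]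
  simp [u3] at e1 e2
  exact ⟨e1.symm, e2.symm⟩

theorem card_Y3 (F : Type*) [Field F] [Finite F] : Nat.card (Y3 F) = Nat.card F ^ 2 := by
  let f : F × F → Y3 F := fun p => ⟨QuotientGroup.mk (u3 p.1 p.2), p.1, p.2, rfl⟩
  have hf : Function.Bijective f := by
    constructor
    · rintro ⟨y, z⟩ ⟨y', z'⟩ h
      have h1 : (QuotientGroup.mk (u3 y z) : Matrix.ProjectiveSpecialLinearGroup (Fin 3) F) =
          QuotientGroup.mk (u3 y' z') := congrArg Subtype.val h
      have h2 := QuotientGroup.eq.1 h1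
      have h3 : (u3 y z)⁻¹ * u3 y' z' = u3 (y' - y) (z' - z) := by
        rw [inv_mul_eq_iff_eq_mul, u3_mul]
        congr 1 <;> ring
      rw [h3] at h2
      obtain ⟨h4, h5⟩ := u3_center h2
      rw [sub_eq_zero] at h4 h5
      rw [h4, h5]
    · rintro ⟨_, y, z, rfl⟩
      exact ⟨(y, z), rfl⟩
  rw [← Nat.card_congr (Equiv.ofBijective f hf), Nat.card_prod, sq]

theorem psl3_not_dvd (F : Type*) [Field F] [Finite F] :
    ¬ Nat.card (Y3 F) ^ 2 ∣ Nat.card (Matrix.ProjectiveSpecialLinearGroup (Fin 3) F) := by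
  haveI := Fintype.ofFinite F
  intro h
  rw [card_Y3] at h
  set q := Nat.card F with hq
  have hq2 : 2 ≤ q := Finite.one_lt_card
  have h1 : Nat.card (Matrix.ProjectiveSpecialLinearGroup (Fin 3) F) ∣
      Nat.card (Matrix.SpecialLinearGroup (Fin 3) F) :=
    Subgroup.card_quotient_dvd_card _
  have h2 : Nat.card (Matrix.SpecialLinearGroup (Fin 3) F) ∣ Nat.card (GL (Fin 3) F) :=
    Subgroup.card_dvd_of_injective (Matrix.SpecialLinearGroup.toGL)
      Matrix.SpecialLinearGroup.toGL_injective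
  have h3 := Matrix.card_GL_field (𝔽 := F) 3
  rw [Fin.prod_univ_three, ← Nat.card_eq_fintype_card (α := F)] at h3
  have h4 : q ^ 4 ∣ (q ^ 3 - q ^ 0) * (q ^ 3 - q ^ 1) * (q ^ 3 - q ^ 2) := by
    have h5 := (h.trans h1).trans h2
    rw [h3] at h5
    have : (q ^ 2) ^ 2 = q ^ 4 := by ring
    rw [this] at h5
    exact h5
  have e1 : q ^ 3 - q ^ 1 = q * (q ^ 2 - 1) := by
    rw [Nat.mul_sub]; congr 1 <;> ring
  have e2 : q ^ 3 - q ^ 2 = q ^ 2 * (q - 1) := by
    rw [Nat.mul_sub]; congr 1 <;> ring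
  rw [e1, e2, pow_zero] at h4
  have h6 : q ^ 3 * q ∣ q ^ 3 * ((q ^ 3 - 1) * (q ^ 2 - 1) * (q - 1)) := by
    have e3 : q ^ 3 * ((q ^ 3 - 1) * (q ^ 2 - 1) * (q - 1)) =
      (q ^ 3 - 1) * (q * (q ^ 2 - 1)) * (q ^ 2 * (q - 1)) := by ring
    rw [e3, ← pow_succ]; exact h4
  have h7 : q ∣ (q ^ 3 - 1) * (q ^ 2 - 1) * (q - 1) :=
    Nat.dvd_of_mul_dvd_mul_left (by positivity) h6
  have cop : ∀ k, k ≠ 0 → Nat.Coprime q (q ^ k - 1) := by
    intro k hk
    have h8 : Nat.Coprime (q ^ k) (q ^ k - 1) := by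
      have h9 : 1 ≤ q ^ k := Nat.one_le_pow _ _ (by omega)
      have := (Nat.coprime_self_sub_right h9)
      rw [this]
      exact Nat.coprime_one_right _
    exact Nat.Coprime.coprime_dvd_left (dvd_pow_self q hk) h8
  have h10 : Nat.Coprime q ((q ^ 3 - 1) * (q ^ 2 - 1) * (q - 1)) :=
    Nat.Coprime.mul_right (Nat.Coprime.mul_right (cop 3 (by norm_num)) (cop 2 (by norm_num)))
      (by simpa using cop 1 (by norm_num))
  have h11 := Nat.Coprime.eq_one_of_dvd h10 h7
  omega

theorem psl3_T (F : Type*) [Field F] [Finite F] :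
    T (Matrix.ProjectiveSpecialLinearGroup (Fin 3) F ×
      Matrix.ProjectiveSpecialLinearGroup (Fin 3) F) = 3 := by
  haveI : Nontrivial (Matrix.ProjectiveSpecialLinearGroup (Fin 3) F) := inferInstance
  refine T_eq_three' (Y3 F) (psl3_not_dvd F) ?_
  have key : ∀ x ∈ Y3 F, x ≠ 1 → IsConj x
      (QuotientGroup.mk (u3 (0 : F) 1) : Matrix.ProjectiveSpecialLinearGroup (Fin 3) F) := by
    rintro _ ⟨y, z, rfl⟩ hne
    have h1 : ¬ (y = 0 ∧ z = 0) := by
      rintro ⟨rfl, rfl⟩
      apply hne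
      have : u3 (0 : F) 0 = 1 := by
        apply Subtype.ext
        simp only [u3]
        ext i j
        fin_cases i <;> fin_cases j <;> simp
      rw [this]; rfl
    obtain ⟨c, hc⟩ := isConj_iff.1 (u3_conj h1)
    rw [isConj_iff]
    refine ⟨QuotientGroup.mk c, ?_⟩
    rw [← QuotientGroup.mk_inv, ← QuotientGroup.mk_mul, ← QuotientGroup.mk_mul, hc]
  intro x hx y hy hx1 hy1
  exact (key x hx hx1).trans (key y hy hy1).symm


end

/-- **Result.** With `T G` the largest degree of a partial congruence partition in `G`: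
* `T (A_n × A_n) = 3` for every `n ≥ 5`;
* `T (PSL(2,F) × PSL(2,F)) = 3` and `T (PSL(3,F) × PSL(3,F)) = 3` for every finite field `F`;
* `T (H × H) = 3` for every finite group `H` having a prime divisor `p` of `|H|` such that all
  elements of order `p` of `H` are conjugate;
* `T (H × H) = 3` for every nontrivial finite group `H` having a subgroup `Y` such that `|Y|^2`
  does not divide `|H|` and all elements of `Y` other than `1` are conjugate in `H`;
* if `p` divides `|H|` and the Sylow `p`-subgroups of the finite group `H` are cyclic, then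
  `T P = p + 1` for every Sylow `p`-subgroup `P` of `H × H`. -/
theorem result :
    (∀ n : ℕ, 5 ≤ n → T (alternatingGroup (Fin n) × alternatingGroup (Fin n)) = 3) ∧
    (∀ (F : Type) [Field F] [Finite F],
      T (Matrix.ProjectiveSpecialLinearGroup (Fin 2) F ×
        Matrix.ProjectiveSpecialLinearGroup (Fin 2) F) = 3 ∧
      T (Matrix.ProjectiveSpecialLinearGroup (Fin 3) F ×
        Matrix.ProjectiveSpecialLinearGroup (Fin 3) F) = 3) ∧
    (∀ (H : Type) [Group H] [Finite H] (p : ℕ), p.Prime → p ∣ Nat.card H →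
      (∀ x y : H, orderOf x = p → orderOf y = p → IsConj x y) → T (H × H) = 3) ∧
    (∀ (H : Type) [Group H] [Finite H] [Nontrivial H] (Y : Subgroup H),
      ¬ Nat.card Y ^ 2 ∣ Nat.card H →
      (∀ x ∈ Y, ∀ y ∈ Y, x ≠ 1 → y ≠ 1 → IsConj x y) → T (H × H) = 3) ∧
    (∀ (H : Type) [Group H] [Finite H] (p : ℕ), p.Prime → p ∣ Nat.card H →
      ∀ S : Sylow p H, IsCyclic S → ∀ P : Sylow p (H × H), T P = p + 1) :=
  ⟨fun _ hn => alt_T hn, fun F _ _ => ⟨T_eq_three Nat.prime_two (psl_dvd F) psl_conj, psl3_T F⟩,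
    fun _ _ _ _ hp hd hc => T_eq_three hp hd hc,
    fun _ _ _ _ Y h1 h2 => T_eq_three' Y h1 h2,
    fun _ _ _ _ hp hd S hS P => sylow_cyclic hp hd S hS P⟩

end Pool.Agent.Results.MP_bfe725_co.AltPSL3
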